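import Pool.Agent.H770.SN.PLn
import Pool.Agent.H770.SN.Mn
import Pool.Agent.H134.SN2
import Pool.Agent.H457.SN3
import Pool.Agent.H229.SN4
import Pool.Agent.H126.SN5
import Pool.Agent.H588.SN6
import Pool.Agent.H977.SN7
import Pool.Agent.H412.SN9
import Pool.Agent.H100.SN10

set_option autoImplicit false

namespace Pool.Agent.Results.MP_f5910f_gt.UnconditionalBody

open MeasureTheory

/-- The reflection of `ℝⁿ` in the `i`-th coordinate hyperplane: the sign of the `i`-th coordinate is changed. -/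
noncomputable def reflect {n : ℕ} (i : Fin n) (x : EuclideanSpace ℝ (Fin n)) : EuclideanSpace ℝ (Fin n) :=
  WithLp.toLp 2 (Function.update (fun j => x j) i (-(x i)))

/-- `|K ∩ T| |K° ∩ T| ≤ |B ∩ T|²` for every `n`, every origin-symmetric compact set `K` (in particular every
origin-symmetric convex body) and every measurable convex set `T` which is unconditional (invariant under the
reflections in the coordinate hyperplanes). -/
theorem result :
    ∀ (n : ℕ) (K T : Set (EuclideanSpace ℝ (Fin n))),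
      IsCompact K → (∀ x ∈ K, -x ∈ K) →
      Convex ℝ T → MeasurableSet T → (∀ i : Fin n, ∀ x ∈ T, reflect i x ∈ T) →
      volume (K ∩ T) * volume ({y : EuclideanSpace ℝ (Fin n) | ∀ x ∈ K, inner ℝ x y ≤ (1 : ℝ)} ∩ T)
        ≤ volume (Metric.closedBall (0 : EuclideanSpace ℝ (Fin n)) 1 ∩ T) ^ 2 := by
  have hmain : ∀ (n : ℕ) (K T : Set (Fin n → ℝ)), IsCompact K → (∀ x ∈ K, -x ∈ K) → MeasurableSet T →
      Convex ℝ T → Pool.Agent.H770.SN.Unc T →
      volume (K ∩ T) * volume (Pool.Agent.H770.SN.Pol K ∩ T) ≤ volume (Pool.Agent.H770.SN.Bal n ∩ T) ^ 2 := by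
    intro n K T hK hs hTm hTc hTu
    obtain ⟨K', hK', hU, h1, h2⟩ := Pool.Agent.H588.SN6.t_iter Pool.Agent.H134.SN2.t_Stc
      Pool.Agent.H457.SN3.t_Stm Pool.Agent.H229.SN4.t_Kside Pool.Agent.H126.SN.pside
      Pool.Agent.H770.SN.t_BM1 Pool.Agent.H770.SN.t_BMn n K T hK hs hTm hTc hTu
    exact le_trans (mul_le_mul' h1 h2) (Pool.Agent.H412.SN9.unc
      (Pool.Agent.H770.SN.t_Mn Pool.Agent.H977.SN7.t_M1) n K' T hK'.measurableSet hU hTm hTc hTu)
  intro n K T hK hs hTc hTm hTu
  exact Pool.Agent.H100.SN10.t_euc hmain n K T hK hs hTm hTc hTu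

end Pool.Agent.Results.MP_f5910f_gt.UnconditionalBody
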